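import Mathlib
import Pool.Agent.H710R2.DP.Final

/-!
Every bounded derivation of a C*-subalgebra of `B(H)` into `B(H)` is inner.
-/

set_option autoImplicit false

noncomputable section

namespace Pool.Agent.Results.MP_10e0c3_an.DerivationsInner

/-- Q2: for every Hilbert space `H`, every norm closed self-adjoint subalgebra `A` of `B(H)` and
every bounded derivation `D : A → B(H)` there is `T ∈ B(H)` with `D a = a T - T a` for all `a`. -/
theorem result (H : Type) [NormedAddCommGroup H] [InnerProductSpace ℂ H] [CompleteSpace H]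
    (A : NonUnitalStarSubalgebra ℂ (H →L[ℂ] H)) (hA : IsClosed (A : Set (H →L[ℂ] H)))
    (D : A →ₗ[ℂ] (H →L[ℂ] H)) (C : ℝ) (hC : ∀ a, ‖D a‖ ≤ C * ‖a‖)
    (hD : ∀ a b : A, D (a * b) = (a : H →L[ℂ] H) * D b + D a * (b : H →L[ℂ] H)) :
    ∃ T : H →L[ℂ] H, ∀ a : A, D a = (a : H →L[ℂ] H) * T - T * (a : H →L[ℂ] H) := by
  have := hA
  let π : A →⋆ₙₐ[ℂ] (H →L[ℂ] H) := NonUnitalStarSubalgebraClass.subtype A
  let δ : A →L[ℂ] (H →L[ℂ] H) := D.mkContinuous C hC
  exact H710R2.DP.fin_unit A H π δ hD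

end Pool.Agent.Results.MP_10e0c3_an.DerivationsInner
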