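import Mathlib
import Pool.Agent.H730R3.HB.Q42

/-!
Bounded Hochschild cocycles of a C*-algebra `A ⊆ B(H)` with values in a von Neumann algebra `N ⊇ A` which
has a faithful normal tracial state are coboundaries.
-/

set_option autoImplicit false

namespace Pool.Agent.Results.MP_10e0c3_an.FiniteValues

/-- Let `A ⊆ N ⊆ B(H)` be norm closed unital *-subalgebras, `τ` a faithful tracial state on `N` for which the
closed unit ball of `N` is complete in the 2-norm (so `N` is a tracial von Neumann algebra). Every bounded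
`(n+1)`-cocycle of `A` with values in `N ⊆ B(H)` is the coboundary of a bounded `n`-linear map with values in
`N`. -/
theorem result (H : Type) [NormedAddCommGroup H] [InnerProductSpace ℂ H] [CompleteSpace H]
    (A N : StarSubalgebra ℂ (H →L[ℂ] H)) (hA : IsClosed (A : Set (H →L[ℂ] H)))
    (hN : IsClosed (N : Set (H →L[ℂ] H))) (hAN : A ≤ N) (τ : (H →L[ℂ] H) → ℂ)
    (h_add : ∀ x ∈ N, ∀ y ∈ N, τ (x + y) = τ x + τ y) (h_smul : ∀ (c : ℂ), ∀ x ∈ N, τ (c • x) = c * τ x)
    (h_one : τ 1 = 1) (h_trace : ∀ x ∈ N, ∀ y ∈ N, τ (x * y) = τ (y * x))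
    (h_nonneg : ∀ x ∈ N, 0 ≤ (τ (star x * x)).re) (h_real : ∀ x ∈ N, (τ (star x * x)).im = 0)
    (h_faithful : ∀ x ∈ N, (τ (star x * x)).re = 0 → x = 0)
    (h_complete : ∀ x : ℕ → (H →L[ℂ] H), (∀ k, x k ∈ N ∧ ‖x k‖ ≤ 1) →
      (∀ ε > 0, ∃ K, ∀ k ≥ K, ∀ l ≥ K, (τ (star (x k - x l) * (x k - x l))).re ≤ ε) →
      ∃ y ∈ N, ‖y‖ ≤ 1 ∧ ∀ ε > 0, ∃ K, ∀ k ≥ K, (τ (star (x k - y) * (x k - y))).re ≤ ε)
    (n : ℕ) (φ : ContinuousMultilinearMap ℂ (fun _ : Fin (n + 1) => A) (H →L[ℂ] H))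
    (hval : ∀ a, φ a ∈ N)
    (hφ : ∀ a : Fin (n + 2) → A,
        (a 0 : H →L[ℂ] H) * φ (Fin.tail a)
          + ∑ i : Fin (n + 1), (-1 : ℂ) ^ (i.val + 1) •
              φ (fun j : Fin (n + 1) =>
                if j < i then a j.castSucc
                else if j = i then a j.castSucc * a j.succ
                else a j.succ)
          + (-1 : ℂ) ^ (n + 2) • (φ (Fin.init a) * (a (Fin.last (n + 1)) : H →L[ℂ] H)) = 0) :
      ∃ ψ : ContinuousMultilinearMap ℂ (fun _ : Fin n => A) (H →L[ℂ] H), (∀ a, ψ a ∈ N) ∧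
        ∀ a : Fin (n + 1) → A,
          φ a = (a 0 : H →L[ℂ] H) * ψ (Fin.tail a)
            + ∑ i : Fin n, (-1 : ℂ) ^ (i.val + 1) •
                ψ (fun j : Fin n =>
                  if j < i then a j.castSucc
                  else if j = i then a j.castSucc * a j.succ
                  else a j.succ)
            + (-1 : ℂ) ^ (n + 1) • (ψ (Fin.init a) * (a (Fin.last n) : H →L[ℂ] H)) :=
  H730HC.final_BH H A N hA hN hAN τ h_add h_smul h_one h_trace h_nonneg h_real h_faithful h_complete n φ hval hφ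

end Pool.Agent.Results.MP_10e0c3_an.FiniteValues
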